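import Pool.Agent.Lib.MP_688fd0_co.SQ2.Iface

/-!
NEAR: a window can meet translates of few others only.
-/

set_option autoImplicit false

namespace Pool.Agent.Lib.MP_688fd0_co.SQ2

open Pool.Agent.Lib.MP_688fd0_co.OSF

namespace NearP

section

variable {Q : Type} [Group Q] (B : Lb.{0, 0} Q)

/-- The value of an optional label. -/
def ov : Option B.L → Q
  | none => 1
  | some b => B.q b

/-- The value of a word with at most four letters. -/
def wv (f : Fin 4 → Option B.L) : Q := ov B (f 0) * ov B (f 1) * ov B (f 2) * ov B (f 3)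

variable {B}

theorem exists_wv (l : List B.L) (hl : l.length ≤ 4) : ∃ f : Fin 4 → Option B.L, ∀ x : Q, B.fin x l = x * wv B f := by
  rcases l with _ | ⟨a, _ | ⟨b, _ | ⟨c, _ | ⟨d, _ | ⟨e, l⟩⟩⟩⟩⟩
  · exact ⟨![none, none, none, none], fun x => by
      show x = x * (1 * 1 * 1 * 1); simp⟩
  · exact ⟨![some a, none, none, none], fun x => by
      show x * B.q a = x * (B.q a * 1 * 1 * 1); simp⟩
  · exact ⟨![some a, some b, none, none], fun x => by
      show x * B.q a * B.q b = x * (B.q a * B.q b * 1 * 1); simp [mul_assoc]⟩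
  · exact ⟨![some a, some b, some c, none], fun x => by
      show x * B.q a * B.q b * B.q c = x * (B.q a * B.q b * B.q c * 1); simp [mul_assoc]⟩
  · exact ⟨![some a, some b, some c, some d], fun x => by
      show x * B.q a * B.q b * B.q c * B.q d = x * (B.q a * B.q b * B.q c * B.q d); simp [mul_assoc]⟩
  · simp only [List.length_cons] at hl
    omega

end

end NearP

open NearP

/-- NEAR -/
theorem near : NearS := by
  classical
  intro Q _ B a D z k hH c W d N x b₁ b₂ j F rk hC hT i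
  have := hH.fin
  have := hH.finL
  have := hH.nrm
  set A := B.q a with hA
  -- the normal subgroup generated by `D` and `z`
  have hzn : (Subgroup.zpowers z).Normal := by
    refine ⟨fun n hn g => ?_⟩
    obtain ⟨t, rfl⟩ := Subgroup.mem_zpowers_iff.1 hn
    have hc : Commute g z := (hH.cen g).symm
    have h1 : g * z ^ t = z ^ t * g := (hc.zpow_right t).eq
    rw [h1, mul_inv_cancel_right]
    exact Subgroup.zpow_mem_zpowers z t
  set E : Subgroup Q := D ⊔ Subgroup.zpowers z with hE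
  have hAE : A ∈ E := by
    have h1 : A = z * (z⁻¹ * A) := by group
    rw [h1]
    exact E.mul_mem (le_sup_right (a := D) (Subgroup.mem_zpowers z)) (le_sup_left (b := Subgroup.zpowers z) hH.mem)
  have hDE : ∀ δ ∈ D, δ ∈ E := fun δ h => le_sup_left (b := Subgroup.zpowers z) h
  have hEle : E ≤ D ⊔ Subgroup.zpowers A := by
    refine sup_le le_sup_left ?_
    rw [Subgroup.zpowers_le]
    have h1 : z = A * (z⁻¹ * A)⁻¹ := by group
    rw [h1]
    exact Subgroup.mul_mem _ (le_sup_right (a := D) (Subgroup.mem_zpowers A))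
      (Subgroup.inv_mem _ (le_sup_left (b := Subgroup.zpowers A) hH.mem))
  have hEdec : ∀ e ∈ E, ∃ δ ∈ D, ∃ t : ℤ, e = δ * A ^ t := by
    intro e he
    obtain ⟨δ, hδ, y, hy, rfl⟩ := Subgroup.mem_sup_of_normal_left.1 (hEle he)
    obtain ⟨t, rfl⟩ := Subgroup.mem_zpowers_iff.1 hy
    exact ⟨δ, hδ, t, rfl⟩
  let π : Q →* Q ⧸ E := QuotientGroup.mk' E
  have hπ1 : ∀ e ∈ E, π e = 1 := fun e he => (QuotientGroup.eq_one_iff e).2 he
  have hπA : ∀ t : ℤ, π (A ^ t) = 1 := fun t => hπ1 _ (E.zpow_mem hAE t)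
  -- near paths
  let nr : Fin N → Prop := fun i' => ∃ y ∈ F i, ∃ y' ∈ F i', ∃ l l' : ℤ, y * A ^ l = y' * A ^ l'
  have hx : ∀ i', nr i' → ∃ f f' : Fin 4 → Option B.L, π (x i') = π (x i * wv B f * (wv B f')⁻¹) := by
    rintro i' ⟨y, hy, y', hy', l, l', he⟩
    obtain ⟨w, hw, o, ho⟩ := hC.fsub i y hy
    obtain ⟨w', hw', o', ho'⟩ := hC.fsub i' y' hy'
    obtain ⟨f, hf⟩ := exists_wv w hw
    obtain ⟨f', hf'⟩ := exists_wv w' hw'
    refine ⟨f, f', ?_⟩
    rw [hf] at ho
    rw [hf'] at ho'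
    have e1 : π y = π (x i * wv B f) := by
      have h1 := hπ1 _ (hDE _ ho)
      rw [map_mul, map_inv, map_mul, hπA, mul_one] at h1
      exact (inv_mul_eq_one.1 h1).symm
    have e2 : π y' = π (x i' * wv B f') := by
      have h1 := hπ1 _ (hDE _ ho')
      rw [map_mul, map_inv, map_mul, hπA, mul_one] at h1
      exact (inv_mul_eq_one.1 h1).symm
    have e3 := congrArg π he
    rw [map_mul, map_mul, hπA, hπA, mul_one, mul_one, e1, e2] at e3
    rw [map_mul π (x i * wv B f), e3, ← map_mul, mul_inv_cancel_right]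
  -- a line for each path
  have hg : ∀ i', ∃ g : Q, (∃ p : Q → Prop, p g ∧ ∀ y, p y → ∀ i'', i'' ≠ i' →
      ((y : Q ⧸ Subgroup.zpowers A) = (x i'' : Q) ∨ (y : Q ⧸ Subgroup.zpowers A) = (x i'' * B.q (b₁ i'') : Q) ∨
        (y : Q ⧸ Subgroup.zpowers A) = (x i'' * A ^ j i'' * B.q (b₂ i'') : Q)) → rk i'' < rk i') ∧
      (g = x i' ∨ g = x i' * B.q (b₁ i') ∨ g = x i' * A ^ j i' * B.q (b₂ i')) := by
    intro i'
    obtain ⟨p, hp, hp'⟩ := hT.two i'
    rcases hp with ⟨h, -⟩ | ⟨h, -⟩ | ⟨h, -⟩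
    · exact ⟨_, ⟨p, h, hp'⟩, Or.inl rfl⟩
    · exact ⟨_, ⟨p, h, hp'⟩, Or.inl rfl⟩
    · exact ⟨_, ⟨p, h, hp'⟩, Or.inr (Or.inl rfl)⟩
  choose g hg1 hg2 using hg
  have hginj : ∀ i' i'', (g i' : Q ⧸ Subgroup.zpowers A) = (g i'' : Q) → i' = i'' := by
    intro i' i'' he
    by_contra hne
    have key : ∀ i' i'', (g i' : Q ⧸ Subgroup.zpowers A) = (g i'' : Q) → i' ≠ i'' → rk i'' < rk i' := by
      intro i' i'' he hne
      obtain ⟨p, h1, h2⟩ := hg1 i'
      refine h2 _ h1 i'' (Ne.symm hne) ?_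
      rcases hg2 i'' with h | h | h
      · left; rw [he, h]
      · right; left; rw [he, h]
      · right; right; rw [he, h]
    have h1 := key i' i'' he hne
    have h2 := key i'' i' he.symm (Ne.symm hne)
    omega
  -- the representation of the lines
  let G : ((Fin 4 → Option B.L) × (Fin 4 → Option B.L)) × (Option B.L × D) → Q ⧸ Subgroup.zpowers A := fun p =>
    ((x i * wv B p.1.1 * (wv B p.1.2)⁻¹ * ov B p.2.1 * (p.2.2 : Q) : Q) : Q ⧸ Subgroup.zpowers A)
  have hrep : ∀ i', nr i' → ∃ p, G p = (g i' : Q ⧸ Subgroup.zpowers A) := by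
    intro i' hi'
    obtain ⟨f, f', hf⟩ := hx i' hi'
    have h1 : ∃ v : Option B.L, π (g i') = π (x i * wv B f * (wv B f')⁻¹ * ov B v) := by
      rcases hg2 i' with h | h | h
      · refine ⟨none, ?_⟩
        rw [h, hf]
        show _ = π (x i * wv B f * (wv B f')⁻¹ * 1)
        rw [mul_one]
      · refine ⟨some (b₁ i'), ?_⟩
        rw [h, map_mul, hf, ← map_mul]
        rfl
      · refine ⟨some (b₂ i'), ?_⟩
        have h3 : π (A ^ j i') = 1 := hπ1 _ (E.pow_mem hAE _)
        rw [h, map_mul, map_mul π (x i'), h3, mul_one, hf, ← map_mul]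
        rfl
    obtain ⟨v, hv⟩ := h1
    have h2 : (x i * wv B f * (wv B f')⁻¹ * ov B v)⁻¹ * g i' ∈ E := by
      rw [← QuotientGroup.eq]
      exact hv.symm
    obtain ⟨δ, hδ, t, ht⟩ := hEdec _ h2
    refine ⟨((f, f'), (v, ⟨δ, hδ⟩)), ?_⟩
    show ((x i * wv B f * (wv B f')⁻¹ * ov B v * δ : Q) : Q ⧸ Subgroup.zpowers A) = (g i' : Q)
    rw [QuotientGroup.eq]
    have h3 : (x i * wv B f * (wv B f')⁻¹ * ov B v * δ)⁻¹ * g i' = A ^ t := by
      rw [mul_inv_rev, mul_assoc, ht, inv_mul_cancel_left]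
    rw [h3]
    exact Subgroup.zpow_mem_zpowers A t
  refine ⟨Finset.univ.filter nr, ?_, ?_⟩
  · have h1 : (Finset.univ.filter nr).card = Nat.card {i' // nr i'} := by
      rw [Nat.card_eq_fintype_card, Fintype.card_subtype]
    rw [h1]
    choose ψ hψ using hrep
    have h2 : Function.Injective fun i' : {i' // nr i'} => ψ i'.1 i'.2 := by
      intro i' i'' h
      have h3 : G (ψ i'.1 i'.2) = G (ψ i''.1 i''.2) := congrArg G h
      rw [hψ, hψ] at h3
      exact Subtype.ext (hginj _ _ h3)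
    have h3 := Nat.card_le_card_of_injective _ h2
    have h4 : Nat.card (((Fin 4 → Option B.L) × (Fin 4 → Option B.L)) × (Option B.L × D)) =
        ((Nat.card B.L + 1) ^ 4 * (Nat.card B.L + 1) ^ 4) * ((Nat.card B.L + 1) * Nat.card D) := by
      have h5 : Nat.card (Option B.L) = Nat.card B.L + 1 := Finite.card_option
      rw [Nat.card_prod, Nat.card_prod, Nat.card_prod, Nat.card_fun, h5, Nat.card_eq_fintype_card (α := Fin 4),
        Fintype.card_fin]
    rw [h4] at h3
    have hk : 0 < k := hH.kodd.pos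
    have h5 : Nat.card D ≤ k := Nat.le_of_dvd hk hH.card
    calc Nat.card {i' // nr i'} ≤ _ := h3
      _ = (Nat.card B.L + 1) ^ 9 * Nat.card D := by ring
      _ ≤ (Nat.card B.L + 2) ^ 9 * k := Nat.mul_le_mul (Nat.pow_le_pow_left (by omega) 9) h5
      _ ≤ (Nat.card B.L + 2) ^ 10 * k :=
        Nat.mul_le_mul_right k (Nat.pow_le_pow_right (by omega) (by omega))
  · intro i' hi' y hy y' hy' l l' he
    apply hi'
    rw [Finset.mem_filter]
    exact ⟨Finset.mem_univ _, y, hy, y', hy', l, l', he⟩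

end Pool.Agent.Lib.MP_688fd0_co.SQ2
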