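import Pool.Agent.Lib.MP_688fd0_co.SQ2.H62.Vers

/-!
BLOCKS: flat windows along a tree of lines, several of them (the slots) for each path of length two of the tree, each
slot in two versions: one tour, and its volume for all choices of the versions.
-/

set_option autoImplicit false

namespace Pool.Agent.Lib.MP_688fd0_co.SQ2

open Pool.Agent.Lib.MP_688fd0_co.OSF

universe u v w

variable {Q : Type u} [Group Q] [DecidableEq Q] {B : Lb.{u, v} Q}

/-- The change of volume by the other version of a window. -/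
def dvol {R : Type w} [CommRing R] (V : Vd B R) (d : Q → Bool) (X X' : TW B) : R :=
  ∑ x ∈ X.tok₀, (if d x then 1 else -1) * (V.vol x (X'.path x) - V.vol x (X.path x))

/-- BLOCKS. -/
theorem blocks [Fintype Q] (a : B.L) {Λ : Type w} (ln : Q → Λ) (d : Q → Bool) {ι : Type} [Fintype ι] [DecidableEq ι]
    (rk : ι → ℕ) (hln : ∀ x, ln (x * B.q a) = ln x) (hln' : ∀ x y, ln x = ln y → ∃ k : ℕ, y = x * B.q a ^ k)
    (hsurj : Function.Surjective ln) (hd : ∀ x, d (x * B.q a) = d x)
    {κ : Type} [Fintype κ] (π : κ → ι) (hπ : Function.Surjective π) (h : κ → ℕ) (X X' : κ → TW B)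
    (L₀ : ι → Finset Q) (u₀ u₁ xs : ι → Q)
    (hV : ∀ k, Ver a (X k) (X' k) (h k) (xs (π k)))
    (hX : ∀ k, (X k).L₀ = L₀ (π k) ∧ (X k).u₀ = u₀ (π k) ∧ (X k).u₁ = u₁ (π k))
    (hcen : ∀ k x, x * B.q a ^ h k = B.q a ^ h k * x)
    (hdir : ∀ i, d (u₀ i) = !d (u₁ i) ∧ d (xs i) = !d (u₁ i))
    (hP : Pos (B.q a) L₀ (fun i => ∑ k with π k = i, h k) u₁ u₀ xs)
    (hT : TreeL ln u₁ u₀ xs rk) :
    ∃ T : Tour B, ∀ c : κ → Bool, ∃ T' : Tour B, ∀ (R : Type) [CommRing R] (V : Vd B R),
      (∀ k, V.chi (B.q a ^ h k) = 1) →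
      V.tvol T' = V.tvol T + ∑ k, if c k then dvol V d (X k) (X' k) else 0 := by
  classical
  -- the slots of a path
  let sl : (κ → Bool) → ι → List (TW B × ℕ) := fun c i =>
    (Finset.univ.filter fun k => π k = i).toList.map fun k => (if c k then X' k else X k, h k)
  have hslne : ∀ c i, sl c i ≠ [] := by
    intro c i h0
    obtain ⟨k, hk⟩ := hπ i
    have h1 : k ∈ (Finset.univ.filter fun k => π k = i).toList := by
      rw [Finset.mem_toList, Finset.mem_filter]
      exact ⟨Finset.mem_univ _, hk⟩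
    have h2 := List.mem_map_of_mem (f := fun k => ((if c k then X' k else X k, h k) : TW B × ℕ)) h1
    have h3 : sl c i = (Finset.univ.filter fun k => π k = i).toList.map
      fun k => (if c k then X' k else X k, h k) := rfl
    rw [← h3, h0] at h2
    exact absurd h2 List.not_mem_nil
  have hsl : ∀ c i, ∀ p ∈ sl c i, Flat a p.1 p.2 (xs i) ∧ p.1.L₀ = L₀ i ∧ p.1.u₀ = u₀ i ∧ p.1.u₁ = u₁ i ∧
      ∀ x, x * B.q a ^ p.2 = B.q a ^ p.2 * x := by
    intro c i p hp
    obtain ⟨k, hk, rfl⟩ := List.mem_map.1 hp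
    rw [Finset.mem_toList, Finset.mem_filter] at hk
    obtain ⟨-, rfl⟩ := hk
    obtain ⟨g1, g2, g3⟩ := hX k
    refine ⟨?_, ?_, ?_, ?_, hcen k⟩
    · show Flat a (if c k then X' k else X k) (h k) _
      by_cases hc : c k
      · rw [if_pos hc]; exact (hV k).flat'
      · rw [if_neg hc]; exact (hV k).flat
    · show (if c k then X' k else X k).L₀ = _
      by_cases hc : c k
      · rw [if_pos hc, (hV k).L₀]; exact g1
      · rw [if_neg hc]; exact g1
    · show (if c k then X' k else X k).u₀ = _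
      by_cases hc : c k
      · rw [if_pos hc, (hV k).u₀]; exact g2
      · rw [if_neg hc]; exact g2
    · show (if c k then X' k else X k).u₁ = _
      by_cases hc : c k
      · rw [if_pos hc, (hV k).u₁]; exact g3
      · rw [if_neg hc]; exact g3
  let c0 : κ → Bool := fun _ => false
  have hf : ∀ c : κ → Bool, ∀ k, ((if c k then X' k else X k, h k) : TW B × ℕ).1.cup =
      ((if c0 k then X' k else X k, h k) : TW B × ℕ).1.cup ∧
      ((if c k then X' k else X k, h k) : TW B × ℕ).1.cap =
      ((if c0 k then X' k else X k, h k) : TW B × ℕ).1.cap := by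
    intro c k
    have e4 : (if c0 k then X' k else X k) = X k := if_neg (by simp [c0])
    show (if c k then X' k else X k).cup = (if c0 k then X' k else X k).cup ∧
      (if c k then X' k else X k).cap = (if c0 k then X' k else X k).cap
    rw [e4]
    by_cases hc : c k
    · rw [if_pos hc]; exact ⟨(hV k).cup, (hV k).cap⟩
    · rw [if_neg hc]; exact ⟨rfl, rfl⟩
  have hhead : ∀ c i, ((sl c i).head (hslne c i)).1.cup = ((sl c0 i).head (hslne c0 i)).1.cup := by
    intro c i
    have e : ∀ c, (sl c i).head (hslne c i) = (if c ((Finset.univ.filter fun k => π k = i).toList.head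
        (fun h0 => hslne c i (by show List.map _ _ = []; rw [h0]; rfl))) then X' _ else X _, h _) := fun c =>
      List.head_map ..
    rw [e c, e c0]
    exact (hf c _).1
  have hlast : ∀ c i, ((sl c i).getLast (hslne c i)).1.cap = ((sl c0 i).getLast (hslne c0 i)).1.cap := by
    intro c i
    have e : ∀ c, (sl c i).getLast (hslne c i) = (if c ((Finset.univ.filter fun k => π k = i).toList.getLast
        (fun h0 => hslne c i (by show List.map _ _ = []; rw [h0]; rfl))) then X' _ else X _, h _) := fun c =>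
      List.getLast_map ..
    rw [e c, e c0]
    exact (hf c _).2
  have hsum : ∀ c i, ((sl c i).map Prod.snd).sum = ∑ k with π k = i, h k := by
    intro c i
    show (((Finset.univ.filter fun k => π k = i).toList.map _).map Prod.snd).sum = _
    rw [List.map_map, Finset.sum_map_toList]
    rfl
  choose W w1 w2 w3 w4 w5 w6 w7 using fun c i =>
    block_vol.{u, v, 0} (L₀ i) (u₀ i) (u₁ i) (xs i) (sl c i) (hslne c i) (hsl c i)
  have hW : ∀ c i, Flat a (W c i) (∑ k with π k = i, h k) (xs i) := fun c i => by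
    rw [← hsum c i]; exact w1 c i
  have hWL : ∀ c, (fun i => (W c i).L₀) = L₀ := fun c => funext fun i => w2 c i
  have hWu₀ : ∀ c, (fun i => (W c i).u₀) = u₀ := fun c => funext fun i => w3 c i
  have hWu₁ : ∀ c, (fun i => (W c i).u₁) = u₁ := fun c => funext fun i => w4 c i
  obtain ⟨T, hT0⟩ := merge Q B a Λ ln d ι (W c0) (fun i => ∑ k with π k = i, h k) xs rk hln hln' hsurj hd
    (hW c0) (fun i => by rw [w3, w4]; exact hdir i) (by rw [hWL, hWu₀, hWu₁]; exact hP)
    (by rw [hWu₀, hWu₁]; exact hT)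
  refine ⟨T, fun c => ?_⟩
  have hVer : ∀ i, Ver a (W c0 i) (W c i) (∑ k with π k = i, h k) (xs i) := fun i =>
    ⟨hW c0 i, hW c i, by rw [w2, w2], by rw [w3, w3], by rw [w4, w4], by rw [w5, w5, hhead],
      by rw [w6, w6, hlast]⟩
  obtain ⟨T', hT'⟩ := vers T (W c0) (W c) (fun i => ∑ k with π k = i, h k) xs d hVer
    (by rw [hWL, hWu₀, hWu₁]; exact hP) (fun i => (hT0 i).1)
  refine ⟨T', fun R _ V hchi => ?_⟩
  rw [hT' R V]
  congr 1
  have hchi' : ∀ c i, ∀ p ∈ sl c i, V.chi (B.q a ^ p.2) = 1 := by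
    intro c i p hp
    obtain ⟨k, hk, rfl⟩ := List.mem_map.1 hp
    exact hchi k
  have hcc : ∀ c i, ccost V (u₀ i) (u₁ i) (sl c i) = ccost V (u₀ i) (u₁ i) (sl c0 i) := fun c i =>
    ccost_congr V (u₀ i) (u₁ i) (fun k => (if c k then X' k else X k, h k))
      (fun k => (if c0 k then X' k else X k, h k)) (hf c) _
  have htok : ∀ c i, (W c i).tok₀ = (W c0 i).tok₀ := fun c i => by
    ext x; rw [TW.mem_tok₀, TW.mem_tok₀, w2, w2, w3, w3, w4, w4]
  have hvol : ∀ i, ∀ x ∈ (W c0 i).tok₀, V.vol x ((W c i).path x) - V.vol x ((W c0 i).path x) =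
      ∑ k with π k = i, if c k then V.vol x ((X' k).path x) - V.vol x ((X k).path x) else 0 := by
    intro i x hx
    have e1 := w7 c i V (hchi' c i) x (by rw [htok c i]; exact hx)
    have e2 := w7 c0 i V (hchi' c0 i) x hx
    rw [e1, e2, hcc c i]
    have e3 : ∀ c : κ → Bool, ((sl c i).map fun p => V.vol x (p.1.path x)).sum =
        ∑ k with π k = i, V.vol x ((if c k then X' k else X k).path x) := by
      intro c
      show (((Finset.univ.filter fun k => π k = i).toList.map _).map _).sum = _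
      rw [List.map_map, Finset.sum_map_toList]
      rfl
    rw [e3, e3, add_sub_add_right_eq_sub, ← Finset.sum_sub_distrib]
    refine Finset.sum_congr rfl fun k _ => ?_
    have e4 : (if c0 k then X' k else X k) = X k := if_neg (by simp [c0])
    rw [e4]
    by_cases hc : c k
    · rw [if_pos hc, if_pos hc]
    · rw [if_neg hc, if_neg hc, sub_self]
  have hfib : ∀ g : κ → R, ∑ k, g k = ∑ i, ∑ k with π k = i, g k := fun g =>
    (Finset.sum_fiberwise Finset.univ π g).symm
  rw [hfib]
  refine Finset.sum_congr rfl fun i _ => ?_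
  have e5 : ∑ x ∈ (W c0 i).tok₀, (if d x then (1 : R) else -1) * (V.vol x ((W c i).path x) -
      V.vol x ((W c0 i).path x)) = ∑ x ∈ (W c0 i).tok₀, ∑ k with π k = i, (if d x then (1 : R) else -1) *
        (if c k then V.vol x ((X' k).path x) - V.vol x ((X k).path x) else 0) := by
    refine Finset.sum_congr rfl fun x hx => ?_
    rw [hvol i x hx, Finset.mul_sum]
  rw [e5, Finset.sum_comm]
  refine Finset.sum_congr rfl fun k hk => ?_
  obtain ⟨-, rfl⟩ := Finset.mem_filter.1 hk
  have e6 : (X k).tok₀ = (W c0 (π k)).tok₀ := by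
    ext x
    obtain ⟨g1, g2, g3⟩ := hX k
    rw [TW.mem_tok₀, TW.mem_tok₀, w2, w3, w4, g1, g2, g3]
  by_cases hc : c k
  · rw [if_pos hc]
    unfold dvol
    rw [e6]
    refine Finset.sum_congr rfl fun x _ => ?_
    rw [if_pos hc]
  · rw [if_neg hc]
    refine Finset.sum_eq_zero fun x _ => ?_
    rw [if_neg hc, mul_zero]

end Pool.Agent.Lib.MP_688fd0_co.SQ2
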