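import Pool.Agent.Lib.MP_688fd0_co.SQ2.Merge
import Pool.Agent.Lib.MP_688fd0_co.SQ2.H62.Block
import Pool.Agent.Lib.MP_688fd0_co.OSF.H59.RewireB

/-!
VERS: other versions of the flat windows of a tour.
-/

set_option autoImplicit false

namespace Pool.Agent.Lib.MP_688fd0_co.SQ2

open Pool.Agent.Lib.MP_688fd0_co.OSF

universe u v

section vers

variable {Q : Type u} [Group Q] [DecidableEq Q] {B : Lb.{u, v} Q} {a : B.L}

/-- `X'` is another version of `X`. -/
structure Ver (a : B.L) (X X' : TW B) (n : ℕ) (xs : Q) : Prop where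
  flat : Flat a X n xs
  flat' : Flat a X' n xs
  L₀ : X'.L₀ = X.L₀
  u₀ : X'.u₀ = X.u₀
  u₁ : X'.u₁ = X.u₁
  cup : X'.cup = X.cup
  cap : X'.cap = X.cap

theorem tok_verts (X : TW B) : ∑ x ∈ X.tok₀, (B.verts x (X.path x) : Multiset Q) =
    ∑ x ∈ X.tok₀, (src B x (X.path x) : Multiset Q) + X.tok₁.val := by
  rw [← TW.sum_singleton X.tok₁, ← X.sum_f fun y => ({y} : Multiset Q), ← Finset.sum_add_distrib]
  refine Finset.sum_congr rfl fun x hx => ?_
  have hx' := TW.mem_tok₀.1 hx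
  rw [verts_eq, X.path_fin x hx'.1 hx'.2.1 hx'.2.2]
  rfl

theorem Flat.le {X : TW B} {n : ℕ} {xs : Q} (h : Flat a X n xs) :
    ∑ x ∈ X.tok₀, (B.verts x (X.path x) : Multiset Q) ≤
      ∑ s ∈ Finset.range (n + 1), (rt X.L₀ (B.q a ^ s)).val := by
  have h1 : ∑ x ∈ X.tok₀, (src B x (X.path x) : Multiset Q) ≤ X.R := by
    unfold TW.R
    rw [add_assoc]
    exact Multiset.le_add_right _ _
  have h2 : X.tok₁.val ≤ X.L₁.val := by
    rw [X.L₁_val, add_assoc]
    exact Multiset.le_add_right _ _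
  rw [tok_verts, Finset.sum_range_succ, ← h.reg, ← h.top]
  exact add_le_add h1 h2

theorem Ver.tok₀ {X X' : TW B} {n : ℕ} {xs : Q} (h : Ver a X X' n xs) : X'.tok₀ = X.tok₀ := by
  ext x; rw [TW.mem_tok₀, TW.mem_tok₀, h.L₀, h.u₀, h.u₁]

theorem Ver.fin {X X' : TW B} {n : ℕ} {xs : Q} (h : Ver a X X' n xs) {x : Q} (hx : x ∈ X.tok₀) :
    X'.f x = X.f x := by
  by_cases hxs : x = xs
  · rw [hxs, h.flat.f_xs, h.flat'.f_xs, h.u₀]
  · rw [h.flat.f x hx hxs, h.flat'.f x (by rw [h.tok₀]; exact hx) hxs]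

theorem Ver.verts {X X' : TW B} {n : ℕ} {xs : Q} (h : Ver a X X' n xs) :
    ∑ x ∈ X.tok₀, (B.verts x (X'.path x) : Multiset Q) =
      ∑ x ∈ X.tok₀, (B.verts x (X.path x) : Multiset Q) := by
  have e1 : X'.tok₁ = X.tok₁ := by
    ext x
    rw [TW.mem_tok₁, TW.mem_tok₁, h.flat.top, h.flat'.top, h.L₀, h.flat.w₀, h.flat'.w₀, h.flat.w₁, h.flat'.w₁,
      h.u₁]
  have e2 : X'.R = X.R := by rw [h.flat.reg, h.flat'.reg, h.L₀]
  have e3 : X'.w₀ = X.w₀ := by rw [h.flat.w₀, h.flat'.w₀, h.u₁]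
  unfold TW.R at e2
  rw [h.tok₀, h.u₀, e3, h.cup, h.cap, add_assoc, add_assoc] at e2
  have e4 := add_right_cancel e2
  have e5 := tok_verts X'
  rw [h.tok₀, e1, e4, ← tok_verts] at e5
  exact e5

/-- VERS. -/
theorem vers [Fintype Q] {ι : Type} [Fintype ι] (T : Tour B) (X X' : ι → TW B) (n : ι → ℕ) (xs : ι → Q)
    (d : Q → Bool) (hV : ∀ i, Ver a (X i) (X' i) (n i) (xs i))
    (hP : Pos (B.q a) (fun i => (X i).L₀) n (fun i => (X i).u₁) (fun i => (X i).u₀) xs)
    (hpass : ∀ i, ∀ x ∈ (X i).tok₀, T.Pass (d x) x ((X i).path x)) :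
    ∃ T' : Tour B, ∀ (R : Type) [CommRing R] (V : Vd B R), V.tvol T' = V.tvol T +
      ∑ i, ∑ x ∈ (X i).tok₀, (if d x then 1 else -1) * (V.vol x ((X' i).path x) - V.vol x ((X i).path x)) := by
  classical
  let I : Finset (ι × Q) := Finset.univ.filter fun p => p.2 ∈ (X p.1).tok₀
  have hI : ∀ p, p ∈ I ↔ p.2 ∈ (X p.1).tok₀ := fun p => by simp [I]
  have hsum : ∀ {M : Type} [AddCommMonoid M] (g : ι → Q → M),
      ∑ p ∈ I, g p.1 p.2 = ∑ i, ∑ x ∈ (X i).tok₀, g i x := by
    intro M _ g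
    rw [Finset.sum_filter, ← Finset.univ_product_univ, Finset.sum_product]
    refine Finset.sum_congr rfl fun i _ => ?_
    rw [← Finset.sum_filter]
    refine Finset.sum_congr ?_ fun _ _ => rfl
    ext x; simp
  have hsumM : ∀ (g : ι → Q → Multiset Q), ∑ p ∈ I, g p.1 p.2 = ∑ i, ∑ x ∈ (X i).tok₀, g i x := by
    intro g
    rw [Finset.sum_filter, ← Finset.univ_product_univ, Finset.sum_product]
    refine Finset.sum_congr rfl fun i _ => ?_
    rw [← Finset.sum_filter]
    refine Finset.sum_congr ?_ fun _ _ => rfl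
    ext x; simp
  let F : ι × Q → Strand B × Bool := fun p => (⟨p.2, (X p.1).path p.2, (X' p.1).path p.2⟩, d p.2)
  let l : List (Strand B × Bool) := I.toList.map F
  have hl : ∀ s ∈ l, ∃ p ∈ I, F p = s := fun s hs => by
    obtain ⟨p, hp, h⟩ := List.mem_map.1 hs
    exact ⟨p, Finset.mem_toList.1 hp, h⟩
  have hfin : ∀ p ∈ I, B.fin p.2 ((X p.1).path p.2) = (X p.1).f p.2 := fun p hp => by
    have := TW.mem_tok₀.1 ((hI p).1 hp)
    exact (X p.1).path_fin _ this.1 this.2.1 this.2.2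
  have hfin' : ∀ p ∈ I, B.fin p.2 ((X' p.1).path p.2) = (X p.1).f p.2 := fun p hp => by
    have h1 := (hI p).1 hp
    rw [← (hV p.1).fin h1]
    rw [← (hV p.1).tok₀] at h1
    have := TW.mem_tok₀.1 h1
    exact (X' p.1).path_fin _ this.1 this.2.1 this.2.2
  have hvb : ((l.map Prod.fst).flatMap Strand.vb : Multiset Q) =
      ∑ i, ∑ x ∈ (X i).tok₀, (B.verts x ((X i).path x) : Multiset Q) := by
    rw [List.map_map, List.flatMap_map, coe_flatMap]
    exact hsumM fun i x => (B.verts x ((X i).path x) : Multiset Q)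
  have hva : ((l.map Prod.fst).flatMap Strand.va : Multiset Q) =
      ∑ i, ∑ x ∈ (X i).tok₀, (B.verts x ((X' i).path x) : Multiset Q) := by
    rw [List.map_map, List.flatMap_map, coe_flatMap]
    exact hsumM fun i x => (B.verts x ((X' i).path x) : Multiset Q)
  have hSOK : SOK (l.map Prod.fst) := by
    refine ⟨?_, ?_, ?_, ?_⟩
    · intro s hs
      obtain ⟨t, ht, rfl⟩ := List.mem_map.1 hs
      obtain ⟨p, hp, rfl⟩ := hl t ht
      show (X p.1).path p.2 ≠ []
      intro h0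
      have h1 := hfin p hp
      rw [h0] at h1
      have h1 : p.2 = (X p.1).f p.2 := h1
      have hp' := TW.mem_tok₀.1 ((hI p).1 hp)
      have h2 := ((X p.1).f_mem _ hp'.1 hp'.2.1 hp'.2.2).1
      rw [(hV p.1).flat.top, mem_rt, ← h1] at h2
      have h3 := hP.disj p.1 p.1 p.2 (p.2 * (B.q a ^ n p.1)⁻¹) 0 (n p.1) hp'.1 h2 (Nat.zero_le _) le_rfl
        (by rw [pow_zero, mul_one, inv_mul_cancel_right])
      have := (hV p.1).flat.pos
      omega
    · intro s hs
      obtain ⟨t, ht, rfl⟩ := List.mem_map.1 hs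
      obtain ⟨p, hp, rfl⟩ := hl t ht
      exact (hfin p hp).trans (hfin' p hp).symm
    · rw [← Multiset.coe_nodup, hvb]
      have h1 : ∑ i, ∑ x ∈ (X i).tok₀, (B.verts x ((X i).path x) : Multiset Q) ≤
          ∑ i, ∑ s ∈ Finset.range (n i + 1), (rt (X i).L₀ (B.q a ^ s)).val :=
        Finset.sum_le_sum fun i _ => (hV i).flat.le
      refine Multiset.nodup_of_le h1 ?_
      let J : Finset (ι × ℕ × Q) := Finset.univ.biUnion fun i => (Finset.range (n i + 1)).biUnion fun s =>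
        (X i).L₀.image fun y => (i, s, y)
      have hJ : ∀ p, p ∈ J ↔ p.2.1 ≤ n p.1 ∧ p.2.2 ∈ (X p.1).L₀ := by
        rintro ⟨i, s, y⟩
        simp only [J, Finset.mem_biUnion, Finset.mem_univ, true_and, Finset.mem_range, Finset.mem_image,
          Prod.mk.injEq]
        constructor
        · rintro ⟨i', s', hs', y', hy', rfl, rfl, rfl⟩
          exact ⟨by omega, hy'⟩
        · rintro ⟨h1, h2⟩
          exact ⟨i, s, by omega, y, h2, rfl, rfl, rfl⟩
      have h2 : ∑ i, ∑ s ∈ Finset.range (n i + 1), (rt (X i).L₀ (B.q a ^ s)).val =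
          J.val.map fun p => p.2.2 * B.q a ^ p.2.1 := by
        have e1 : J.val.map (fun p => p.2.2 * B.q a ^ p.2.1) =
            ∑ p ∈ J, ({p.2.2 * B.q a ^ p.2.1} : Multiset Q) := by
          rw [← TW.sum_singleton J, ← Multiset.coe_mapAddMonoidHom, map_sum]
          rfl
        rw [e1]
        have e2 : J = (Finset.univ.sigma fun i => (Finset.range (n i + 1)) ×ˢ (X i).L₀).image
            fun p => (p.1, p.2.1, p.2.2) := by
          ext ⟨i, s, y⟩
          rw [hJ]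
          simp only [Finset.mem_image, Finset.mem_sigma, Finset.mem_univ, true_and,
            Finset.mem_product, Finset.mem_range, Prod.mk.injEq]
          constructor
          · rintro ⟨h1, h2⟩
            exact ⟨⟨i, s, y⟩, ⟨Nat.lt_succ_of_le h1, h2⟩, rfl, rfl, rfl⟩
          · rintro ⟨⟨i', s', y'⟩, ⟨h1, h2⟩, rfl, rfl, rfl⟩
            exact ⟨by omega, h2⟩
        rw [e2, Finset.sum_image, Finset.sum_sigma]
        · refine Finset.sum_congr rfl fun i _ => ?_
          rw [Finset.sum_product]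
          refine Finset.sum_congr rfl fun s _ => ?_
          rw [← TW.sum_singleton]
          unfold rt
          rw [Finset.sum_map]
          rfl
        · rintro ⟨i, s, y⟩ _ ⟨i', s', y'⟩ _ h
          simp only [Prod.mk.injEq] at h
          obtain ⟨rfl, rfl, rfl⟩ := h
          rfl
      rw [h2]
      refine Multiset.Nodup.map_on ?_ J.nodup
      rintro ⟨i, s, y⟩ hp ⟨i', s', y'⟩ hp' h
      have h3 := (hJ _).1 (Finset.mem_def.2 hp)
      have h4 := (hJ _).1 (Finset.mem_def.2 hp')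
      obtain ⟨rfl, rfl, rfl⟩ := hP.disj i i' y y' s s' h3.2 h4.2 h3.1 h4.1 h
      rfl
    · rw [← Multiset.coe_eq_coe, hva, hvb]
      exact Finset.sum_congr rfl fun i _ => (hV i).verts
  obtain ⟨T', -, hT'⟩ := Pool.Agent.Lib.MP_688fd0_co.OSF.H59.rewire Q B T l hSOK (by
    intro s hs
    obtain ⟨p, hp, rfl⟩ := hl s hs
    exact hpass p.1 p.2 ((hI p).1 hp))
  refine ⟨T', fun R _ V => ?_⟩
  rw [hT' R V]
  congr 1
  unfold Vd.dlt
  rw [List.map_map, Finset.sum_map_toList]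
  exact hsum fun i x => (if d x then 1 else -1) * (V.vol x ((X' i).path x) - V.vol x ((X i).path x))

end vers

end Pool.Agent.Lib.MP_688fd0_co.SQ2
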